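import Pool.Agent.BA0C.B

set_option autoImplicit false

open Metric
open scoped InnerProductSpace

namespace Pool.Agent.Results.MP_0c4bbf_an.EveryDimension

/-- The ball algebra of the unit ball of `ℂⁿ`. -/
def BallAlgebra (n : ℕ) (f : EuclideanSpace ℂ (Fin n) → ℂ) : Prop :=
  ContinuousOn f (closedBall 0 1) ∧ DifferentiableOn ℂ f (ball 0 1)

/-- **In every dimension `n ≥ 2`** there is a compact subset `K` of the unit sphere of `ℂⁿ` that is
not the zero set of any function of the ball algebra, although every point of the closed ball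
outside `K` is a nonzero of some function of the ball algebra that vanishes on `K`. Moreover `K` is
thin: for every `ε > 0` there are finitely many points `p` of the closed ball, of norm at least
`1 - ε`, such that every `x ∈ K` satisfies `|⟨p, x⟩ - ‖p‖²| ≤ ε / N` for one of them, where `N` is
the number of these points. -/
theorem result : ∀ n : ℕ, 2 ≤ n → ∃ K : Set (EuclideanSpace ℂ (Fin n)),
    IsCompact K ∧ K ⊆ sphere 0 1 ∧
    (¬ ∃ f, BallAlgebra n f ∧ {z | z ∈ closedBall 0 1 ∧ f z = 0} = K) ∧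
    (∀ z ∈ closedBall (0 : EuclideanSpace ℂ (Fin n)) 1, z ∉ K →
      ∃ f, BallAlgebra n f ∧ (∀ w ∈ K, f w = 0) ∧ f z ≠ 0) ∧
    (∀ ε : ℝ, 0 < ε → ∃ P : Finset (EuclideanSpace ℂ (Fin n)),
      (∀ p ∈ P, 1 - ε ≤ ‖p‖ ∧ ‖p‖ ≤ 1) ∧
      ∀ x ∈ K, ∃ p ∈ P, (P.card : ℝ) * ‖⟪p, x⟫_ℂ - (‖p‖ ^ 2 : ℝ)‖ ≤ ε) := by
  intro n hn
  obtain ⟨K, h1, h2, h3, h4, h5⟩ :=
    Pool.Agent.BA0C.main (E := EuclideanSpace ℂ (Fin n)) (by simp; omega)
  refine ⟨K, h1, h2, ?_, ?_, fun ε hε => h5 ε hε⟩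
  · rintro ⟨f, ⟨f1, f2⟩, f3⟩
    exact h3 ⟨f, f1, f2, f3⟩
  · intro z hz hzK
    obtain ⟨f, f1, f2, f3, f4⟩ := h4 z hz hzK
    exact ⟨f, ⟨f1, f2⟩, f3, f4⟩

end Pool.Agent.Results.MP_0c4bbf_an.EveryDimension
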